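import Pool.Agent.H848R3.RI.Final

/-!
Bounded derivatives of all orders of the bump perturbations of a coupled cell network.
-/

set_option autoImplicit false
set_option linter.unusedSectionVars false
set_option linter.unusedVariables false
open Topology Filter Set MeasureTheory

namespace Pool.Agent.R194.RS

open Pool.Agent.H848R3.RI

noncomputable section

variable {N : Network} {V : N.SType → Type} [∀ τ, NormedAddCommGroup (V τ)]
  [∀ τ, NormedSpace ℝ (V τ)]

/-- all derivatives are bounded -/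
def BdAll {E F : Type} [NormedAddCommGroup E] [NormedSpace ℝ E] [NormedAddCommGroup F]
    [NormedSpace ℝ F] (g : E → F) : Prop :=
  ContDiff ℝ (⊤ : ℕ∞) g ∧ ∀ j : ℕ, ∃ B : ℝ, 0 ≤ B ∧ ∀ z, ‖iteratedFDeriv ℝ j g z‖ ≤ B

section gen

variable {E F G : Type} [NormedAddCommGroup E] [NormedSpace ℝ E] [NormedAddCommGroup F]
    [NormedSpace ℝ F] [NormedAddCommGroup G] [NormedSpace ℝ G]

lemma BdAll.zero : BdAll (fun _ : E => (0 : F)) := by
  refine ⟨contDiff_const, fun j => ⟨0, le_rfl, fun z => ?_⟩⟩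
  rw [iteratedFDeriv_fun_zero]
  simp

lemma BdAll.add {g h : E → F} (hg : BdAll g) (hh : BdAll h) : BdAll (fun z => g z + h z) := by
  refine ⟨hg.1.add hh.1, fun j => ?_⟩
  obtain ⟨B, hB, h1⟩ := hg.2 j
  obtain ⟨C, hC, h2⟩ := hh.2 j
  refine ⟨B + C, by positivity, fun z => ?_⟩
  have h3 : iteratedFDeriv ℝ j (fun z => g z + h z) z =
      iteratedFDeriv ℝ j g z + iteratedFDeriv ℝ j h z :=
    iteratedFDeriv_add_apply (hg.1.of_le (by exact_mod_cast le_top)).contDiffAt
      (hh.1.of_le (by exact_mod_cast le_top)).contDiffAt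
  rw [h3]
  exact (norm_add_le _ _).trans (add_le_add (h1 z) (h2 z))

lemma BdAll.sum {ι : Type} (s : Finset ι) {g : ι → E → F} (hg : ∀ i ∈ s, BdAll (g i)) :
    BdAll (fun z => ∑ i ∈ s, g i z) := by
  classical
  induction s using Finset.induction_on with
  | empty => simpa using BdAll.zero (E := E) (F := F)
  | insert a s ha ih =>
    simp only [Finset.sum_insert ha]
    exact (hg a (Finset.mem_insert_self a s)).add
      (ih fun i hi => hg i (Finset.mem_insert_of_mem hi))

lemma BdAll.comp_left {g : E → F} (hg : BdAll g) (L : F →L[ℝ] G) : BdAll (fun z => L (g z)) := by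
  refine ⟨L.contDiff.comp hg.1, fun j => ?_⟩
  obtain ⟨B, hB, h1⟩ := hg.2 j
  refine ⟨‖L‖ * B, by positivity, fun z => ?_⟩
  have h2 := L.norm_iteratedFDeriv_comp_left (n := j) (N := ((⊤ : ℕ∞) : WithTop ℕ∞))
    (x := z) hg.1.contDiffAt (by exact_mod_cast le_top)
  exact h2.trans (mul_le_mul_of_nonneg_left (h1 z) (norm_nonneg _))

lemma BdAll.comp_right {g : F → G} (hg : BdAll g) (L : E →L[ℝ] F) : BdAll (fun z => g (L z)) := by
  refine ⟨hg.1.comp L.contDiff, fun j => ?_⟩
  obtain ⟨B, hB, h1⟩ := hg.2 j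
  refine ⟨B * ‖L‖ ^ j, by positivity, fun z => ?_⟩
  have h2 : iteratedFDeriv ℝ j (g ∘ L) z =
      (iteratedFDeriv ℝ j g (L z)).compContinuousLinearMap fun _ => L :=
    L.iteratedFDeriv_comp_right hg.1 z (by exact_mod_cast le_top)
  have h3 : (fun z => g (L z)) = g ∘ L := rfl
  rw [h3, h2]
  refine (ContinuousMultilinearMap.norm_compContinuousLinearMap_le _ _).trans ?_
  rw [Finset.prod_const, Finset.card_univ, Fintype.card_fin]
  exact mul_le_mul_of_nonneg_right (h1 _) (by positivity)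

lemma BdAll.comp_sub {g : E → F} (hg : BdAll g) (a : E) : BdAll (fun z => g (z - a)) := by
  refine ⟨hg.1.comp (contDiff_id.sub contDiff_const), fun j => ?_⟩
  obtain ⟨B, hB, h1⟩ := hg.2 j
  refine ⟨B, hB, fun z => ?_⟩
  rw [iteratedFDeriv_comp_sub]
  exact h1 _

lemma BdAll.of_compact {g : E → F} (h1 : ContDiff ℝ (⊤ : ℕ∞) g) (h2 : HasCompactSupport g) :
    BdAll g := by
  refine ⟨h1, fun j => ?_⟩
  have h3 : HasCompactSupport (iteratedFDeriv ℝ j g) := h2.iteratedFDeriv j
  have h4 : Continuous (iteratedFDeriv ℝ j g) :=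
    h1.continuous_iteratedFDeriv (by exact_mod_cast le_top)
  obtain ⟨B, hB⟩ := h4.bounded_above_of_compact_support h3
  exact ⟨max B 0, le_max_right _ _, fun z => (hB z).trans (le_max_left _ _)⟩

end gen

lemma SmAdm.contDiff {h : Ph N V → Ph N V} (hh : SmAdm h) : ContDiff ℝ (⊤ : ℕ∞) h := by
  obtain ⟨F, hF, hF2⟩ := hh
  rw [contDiff_pi]
  intro c
  have h1 : (fun z => h z c) = fun z => F c (tup V (InputIso.refl c) z) := by
    funext z
    rw [hF2 c c (InputIso.refl c) z, cst_self]
  rw [h1]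
  exact (hF c).comp (tup V (InputIso.refl c)).contDiff

lemma bump_bd (c : N.Node) (Y : Tup N V c) {ψ : Tup N V c → ℝ} (hψ : BdAll ψ) (w : V (N.sp c)) :
    BdAll (bump c Y ψ w) := by
  classical
  have h1 : bump c Y ψ w = fun z => ∑ c' : N.Node, ∑ β : InputIso N c c',
      (ContinuousLinearMap.toSpanSingleton ℝ
        (Pi.single c' (cst β.spq w) : Ph N V)) (ψ (tup V β z - Y)) := by
    funext z
    funext c''
    rw [Finset.sum_apply]
    rw [Finset.sum_eq_single c'']
    · rw [Finset.sum_apply]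
      unfold bump
      refine Finset.sum_congr rfl fun β _ => ?_
      rw [ContinuousLinearMap.toSpanSingleton_apply, Pi.smul_apply, Pi.single_eq_same]
    · intro b _ hb
      rw [Finset.sum_apply]
      refine Finset.sum_eq_zero fun β _ => ?_
      rw [ContinuousLinearMap.toSpanSingleton_apply, Pi.smul_apply,
        Pi.single_eq_of_ne hb.symm, smul_zero]
    · intro h; exact absurd (Finset.mem_univ _) h
  rw [h1]
  refine BdAll.sum _ fun c' _ => BdAll.sum _ fun β _ => ?_
  exact ((hψ.comp_sub Y).comp_right (tup V β)).comp_left _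

lemma psi_bd [∀ τ, FiniteDimensional ℝ (V τ)] (c : N.Node) (n : ℕ) (Y : Tup N V c)
    (w : V (N.sp c)) : BdAll (bump c Y (psi V c n) w) :=
  bump_bd c Y (BdAll.of_compact (psiB V c n).contDiff (psiB V c n).hasCompactSupport) w

end

end Pool.Agent.R194.RS
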