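import Pool.Agent.R194.RS.LMax
import Pool.Agent.H324.RP.Final

set_option autoImplicit false
set_option linter.unusedSectionVars false
set_option linter.unusedVariables false
open Topology Filter Set MeasureTheory

namespace Pool.Agent.R194.RS

open Pool.Agent.H848R3.RI

/-- An equivalence relation `R` on the nodes is balanced: whenever `R c d`, there is an input
isomorphism `β : I(c) → I(d)` with `R (tail e) (tail (β e))` for all `e ∈ I(c)`. -/
def Balanced (N : Network) (R : N.Node → N.Node → Prop) : Prop :=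
  Equivalence R ∧ ∀ c d, R c d → ∃ β : InputIso N c d, ∀ e : N.In c,
    R (N.tail e.1) (N.tail (β.toEquiv e).1)

/-- The nodes `c` and `d` are synchronous on the curve `x`. -/
def Synchronous {N : Network} {V : N.SType → Type} (x : ℝ → Ph N V) (c d : N.Node) : Prop :=
  ∀ t, st (x t) c = st (x t) d

/-- The synchrony of `c` and `d` on the `T`-periodic orbit `x` of `f` is *locally rigid*: there are
an order of differentiability `r`, an open set `J` of times that meets the open period interval
`(0, T)` and `δ > 0` such that for every smooth admissible `h` with `‖D^j h‖ < δ` everywhere for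
all `j ≤ r`, the nodes `c` and `d` have equal states at all times `t ∈ J` on the nearby periodic
orbit of `f + h` (on every periodic orbit `x'` of `f + h`, of period `T'` with `|T' - T| < δ`, that
is `δ`-close to `x` on `[0, T]`). Nothing is assumed at times outside `J`. -/
def LocallyRigid {N : Network} {V : N.SType → Type} [∀ τ, NormedAddCommGroup (V τ)]
    [∀ τ, NormedSpace ℝ (V τ)] (f : Ph N V → Ph N V) (x : ℝ → Ph N V) (T : ℝ)
    (c d : N.Node) : Prop :=
  ∃ (r : ℕ) (J : Set ℝ), IsOpen J ∧ (J ∩ Ioo 0 T).Nonempty ∧ ∃ δ > 0,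
    ∀ h : Ph N V → Ph N V, SmAdm h → (∀ j ≤ r, ∀ z, ‖iteratedFDeriv ℝ j h z‖ < δ) →
      ∀ (x' : ℝ → Ph N V) (T' : ℝ), PeriodicOrbit (fun z => f z + h z) x' T' → |T' - T| < δ →
        (∀ t ∈ Icc 0 T, ‖x' t - x t‖ < δ) → ∀ t ∈ J, st (x' t) c = st (x' t) d

/-- The coarsest relation generated by the balanced relations with property `P`. -/
def joinRel (N : Network) (P : (N.Node → N.Node → Prop) → Prop) : N.Node → N.Node → Prop :=
  Relation.EqvGen fun a b => ∃ R, Balanced N R ∧ P R ∧ R a b

lemma joinRel_balanced (N : Network) (P : (N.Node → N.Node → Prop) → Prop) :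
    Balanced N (joinRel N P) := by
  refine ⟨Relation.EqvGen.is_equivalence _, fun c d h => ?_⟩
  induction h with
  | rel a b h =>
    obtain ⟨R, hR, hP, hab⟩ := h
    obtain ⟨β, hβ⟩ := hR.2 a b hab
    exact ⟨β, fun e => Relation.EqvGen.rel _ _ ⟨R, hR, hP, hβ e⟩⟩
  | refl a => exact ⟨InputIso.refl a, fun e => Relation.EqvGen.refl _⟩
  | symm a b _ ih =>
    obtain ⟨β, hβ⟩ := ih
    refine ⟨β.symm, fun e => ?_⟩
    have h1 := hβ (β.toEquiv.symm e)
    rw [Equiv.apply_symm_apply] at h1
    exact Relation.EqvGen.symm _ _ h1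
  | trans a b c _ _ ih1 ih2 =>
    obtain ⟨β, hβ⟩ := ih1
    obtain ⟨γ, hγ⟩ := ih2
    exact ⟨β.trans γ, fun e => Relation.EqvGen.trans _ _ _ (hβ e) (hγ (β.toEquiv e))⟩

variable {N : Network} {V : N.SType → Type} [∀ τ, NormedAddCommGroup (V τ)]
  [∀ τ, NormedSpace ℝ (V τ)]

lemma joinRel_sync {x : ℝ → Ph N V} {c d : N.Node}
    (h : joinRel N (fun R => ∀ a b, R a b → Synchronous x a b) c d) : Synchronous x c d := by
  induction h with
  | rel a b h =>
    obtain ⟨R, hR, hP, hab⟩ := h
    exact hP a b hab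
  | refl a => exact fun t => rfl
  | symm a b _ ih => exact fun t => (ih t).symm
  | trans a b c _ _ ih1 ih2 => exact fun t => (ih1 t).trans (ih2 t)

/-- every locally rigid pair is contained in a balanced relation of synchronous pairs -/
lemma pair_rel [∀ τ, FiniteDimensional ℝ (V τ)] [∀ τ, Nontrivial (V τ)]
    {f : Ph N V → Ph N V} {x : ℝ → Ph N V} {T : ℝ} (hf : Admissible f) (hx : PerOrb f x T)
    (hnd : NDeg f x T) (c d : N.Node) (hcd : LocallyRigid f x T c d) :
    ∃ R, Balanced N R ∧ (∀ a b, R a b → Synchronous x a b) ∧ R c d := by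
  obtain ⟨r, J, hJ, ⟨t, htJ, htT⟩, δ, hδ, hrig⟩ := hcd
  obtain ⟨η, hη, hsep⟩ := Pool.Agent.H324.RP.sep_all (ρ := 0) hx.continuous hx.per hx.pos le_rfl
    one_pos
  obtain ⟨δ₁, hδ₁⟩ : ∃ δ₁, δ₁ = min δ η := ⟨_, rfl⟩
  have hδ₁0 : 0 < δ₁ := by rw [hδ₁]; exact lt_min hδ hη
  have hle1 : δ₁ ≤ δ := by rw [hδ₁]; exact min_le_left _ _
  have hle2 : δ₁ ≤ η := by rw [hδ₁]; exact min_le_right _ _
  have h0 : (fun z => f z - f z) = fun _ : Ph N V => (0 : Ph N V) := by
    funext z; exact sub_self _
  have hC : Cls r f x T δ₁ f x T :=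
    { adm := hf
      dif := by rw [h0]; exact SmAdm.zero
      near := ⟨0, hδ₁0, fun j _ z => by
        rw [h0, iteratedFDeriv_fun_zero]
        simp⟩
      orb := hx
      nd := hnd
      per := by simpa using hδ₁0
      close := fun t _ => by simpa using hδ₁0 }
  obtain ⟨f₁, x₁, T₁, t₀, hM⟩ := exists_max (J := J) hC htT htJ
  have hmatch := match_all hJ hx.continuous hM hf.smooth
  refine ⟨fun a b => st (x₁ t₀) a = st (x₁ t₀) b,
    ⟨⟨fun _ => rfl, fun h => h.symm, fun h h' => h.trans h'⟩, fun a b hab => hmatch a b hab⟩,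
    fun a b hab t => ?_, ?_⟩
  · have h1 := hsep x₁ T₁ hM.cls.orb.per (hM.cls.per.trans_le hle2)
      (fun t ht => (hM.cls.close t ht).trans_le hle2) a b (fun s => by
        rw [zero_mul, add_zero]
        exact invariant hM.cls.adm hM.cls.orb.sol hM.cls.orb.per hM.cls.orb.pos hmatch a b hab s) t
    rwa [zero_mul, add_zero] at h1
  · have hc := hM.cls
    have he : (fun z => f z + (f₁ z - f z)) = f₁ := by funext z; abel
    obtain ⟨δ', h1, h2⟩ := hc.near
    exact hrig (fun z => f₁ z - f z) hc.dif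
      (fun j hj z => (h2 j hj z).trans_lt (h1.trans_le hle1)) x₁ T₁
      (by rw [he]; exact hc.orb.periodicOrbit) (hc.per.trans_le hle1)
      (fun t ht => (hc.close t ht).trans_le hle1) t₀ hM.memJ

end Pool.Agent.R194.RS
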