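import Pool.Agent.R194.RS.Bd

set_option autoImplicit false
set_option linter.unusedSectionVars false
set_option linter.unusedVariables false
open Topology Filter Set MeasureTheory

namespace Pool.Agent.R194.RS

open Pool.Agent.H848R3.RI

noncomputable section

variable {N : Network} {V : N.SType → Type} [∀ τ, NormedAddCommGroup (V τ)]
  [∀ τ, NormedSpace ℝ (V τ)]

/-- the class of `C^r` small deformations of a periodic orbit -/
structure Cls (r : ℕ) (f : Ph N V → Ph N V) (x : ℝ → Ph N V) (T δ : ℝ)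
    (f' : Ph N V → Ph N V) (x' : ℝ → Ph N V) (T' : ℝ) : Prop where
  adm : Admissible f'
  dif : SmAdm (fun z => f' z - f z)
  near : ∃ δ' < δ, ∀ j ≤ r, ∀ z, ‖iteratedFDeriv ℝ j (fun z => f' z - f z) z‖ ≤ δ'
  orb : PerOrb f' x' T'
  nd : NDeg f' x' T'
  per : |T' - T| < δ
  close : ∀ t ∈ Icc 0 T, ‖x' t - x t‖ < δ

/-- maximisers of the count among the times in `J` -/
structure LMx (r : ℕ) (J : Set ℝ) (f : Ph N V → Ph N V) (x : ℝ → Ph N V) (T δ : ℝ)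
    (f₁ : Ph N V → Ph N V) (x₁ : ℝ → Ph N V) (T₁ t₀ : ℝ) : Prop where
  cls : Cls r f x T δ f₁ x₁ T₁
  mem : t₀ ∈ Ioo 0 T₁
  memJ : t₀ ∈ J
  max : ∀ f'' x'' T'' t'', Cls r f x T δ f'' x'' T'' → t'' ∈ Ioo 0 T'' → t'' ∈ J →
    Pool.Agent.H848R3.RI.cnt f'' (x'' t'') ≤ Pool.Agent.H848R3.RI.cnt f₁ (x₁ t₀)

lemma exists_max {r : ℕ} {J : Set ℝ} {f : Ph N V → Ph N V} {x : ℝ → Ph N V} {T δ : ℝ}
    (h : Cls r f x T δ f x T) {t : ℝ} (ht : t ∈ Ioo 0 T) (htJ : t ∈ J) :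
    ∃ f' x' T' t', LMx r J f x T δ f' x' T' t' := by
  classical
  let P : ℕ → Prop := fun n => ∃ f' x' T' t', Cls r f x T δ f' x' T' ∧ t' ∈ Ioo 0 T' ∧
    t' ∈ J ∧ Pool.Agent.H848R3.RI.cnt f' (x' t') = n
  have hP : P (Pool.Agent.H848R3.RI.cnt f (x t)) := ⟨f, x, T, t, h, ht, htJ, rfl⟩
  have h1 := Nat.findGreatest_spec (P := P) (cnt_le f (x t)) hP
  obtain ⟨f', x', T', t', h2, h3, h3', h4⟩ := h1
  refine ⟨f', x', T', t', h2, h3, h3', fun f'' x'' T'' t'' h5 h6 h7 => ?_⟩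
  rw [h4]
  exact Nat.le_findGreatest (cnt_le _ _) ⟨f'', x'', T'', t'', h5, h6, h7, rfl⟩

section

variable {r : ℕ} {J : Set ℝ} {f f₁ : Ph N V → Ph N V} {x x₁ : ℝ → Ph N V} {T δ T₁ t₀ : ℝ} {g : Ph N V → Ph N V}
  {y : ℝ → ℝ → Ph N V} {τ : ℝ → ℝ} {ζ : Ph N V}

lemma cls_eventually' (hx : Continuous x) (hM : Cls r f x T δ f₁ x₁ T₁) (hg : Pert g)
    (hgb : BdAll g) (hy0 : y 0 = x₁) (hτ0 : τ 0 = T₁) (hτc : ContinuousAt τ 0)
    (hyc : ∀ t, ContinuousAt (fun p : ℝ × ℝ => y p.1 p.2) (0, t))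
    (horb : ∀ᶠ ε in 𝓝 (0:ℝ), PerOrb (fun z => f₁ z + ε • g z) (y ε) (τ ε) ∧
          NDeg (fun z => f₁ z + ε • g z) (y ε) (τ ε)) :
    ∀ᶠ ε : ℝ in 𝓝 (0:ℝ), Cls r f x T δ (fun z => f₁ z + ε • g z) (y ε) (τ ε) := by
  obtain ⟨δ', hδ', hn⟩ := hM.near
  have hk : ∀ j : ℕ, ∀ᶠ ε : ℝ in 𝓝 (0:ℝ), ∀ z, ‖ε • iteratedFDeriv ℝ j g z‖ ≤ (δ - δ') / 2 := by
    intro j
    obtain ⟨B, hB0, hB⟩ := hgb.2 j
    have h1 : Tendsto (fun ε : ℝ => |ε| * B) (𝓝 0) (𝓝 (|(0:ℝ)| * B)) :=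
      (continuous_abs.mul continuous_const).tendsto 0
    rw [abs_zero, zero_mul] at h1
    filter_upwards [h1.eventually (gt_mem_nhds (show (0:ℝ) < (δ - δ') / 2 by linarith))]
      with ε h2 z
    rw [norm_smul, Real.norm_eq_abs]
    exact (mul_le_mul_of_nonneg_left (hB z) (abs_nonneg _)).trans h2.le
  have k1 : ∀ᶠ ε : ℝ in 𝓝 (0:ℝ), ∀ j ∈ Finset.range (r + 1), ∀ z,
      ‖ε • iteratedFDeriv ℝ j g z‖ ≤ (δ - δ') / 2 := by
    rw [Filter.eventually_all_finset]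
    exact fun j _ => hk j
  have k2 : ∀ᶠ ε : ℝ in 𝓝 (0:ℝ), |τ ε - T| < δ := by
    have h1 : ContinuousAt (fun ε => |τ ε - T|) 0 := (hτc.sub continuousAt_const).abs
    refine h1.eventually (gt_mem_nhds ?_)
    simp only [hτ0]
    exact hM.per
  have k3 : ∀ᶠ ε : ℝ in 𝓝 (0:ℝ), ∀ t ∈ Icc 0 T, ‖y ε t - x t‖ < δ := by
    refine (isCompact_Icc (a := 0) (b := T)).eventually_forall_of_forall_eventually
      (P := fun ε t => ‖y ε t - x t‖ < δ) ?_
    intro t ht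
    have h1 : ContinuousAt (fun p : ℝ × ℝ => ‖y p.1 p.2 - x p.2‖) (0, t) :=
      ((hyc t).sub (hx.continuousAt.comp continuousAt_snd)).norm
    refine h1.eventually (gt_mem_nhds ?_)
    simp only [hy0]
    exact hM.close t ht
  filter_upwards [k1, k2, k3, horb] with ε h1 h2 h3 h4
  have he : (fun z => f₁ z + ε • g z - f z) = fun z => (f₁ z - f z) + ε • g z := by
    funext z; abel
  have hdif : SmAdm (fun z => f₁ z + ε • g z - f z) := by
    rw [he]; exact hM.dif.add (hg.sm.smul ε)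
  refine ⟨hM.adm.add_smul hg ε, hdif, ⟨(δ + δ') / 2, by linarith, fun j hj z => ?_⟩, h4.1,
    h4.2, h2, h3⟩
  have hsm1 : ContDiff ℝ j (fun z => f₁ z - f z) :=
    (SmAdm.contDiff hM.dif).of_le (by exact_mod_cast le_top)
  have hsm2 : ContDiff ℝ j g := hgb.1.of_le (by exact_mod_cast le_top)
  have h5 : iteratedFDeriv ℝ j (fun z => (f₁ z - f z) + ε • g z) z =
      iteratedFDeriv ℝ j (fun z => f₁ z - f z) z + ε • iteratedFDeriv ℝ j g z := by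
    rw [fun_iteratedFDeriv_add_apply hsm1.contDiffAt (hsm2.const_smul ε).contDiffAt]
    congr 1
    exact iteratedFDeriv_const_smul_apply' hsm2.contDiffAt
  rw [he, h5]
  have h6 := hn j hj z
  have h7 := h1 j (Finset.mem_range.2 (by omega)) z
  exact (norm_add_le _ _).trans (by linarith)

lemma perturb (hJ : IsOpen J) (hx : Continuous x) (hM : LMx r J f x T δ f₁ x₁ T₁ t₀)
    (hg : Pert g) (hgb : BdAll g)
    (hF : Fam f₁ x₁ T₁ g t₀ y τ ζ) (hf : ContDiff ℝ 1 f) :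
    ∀ᶠ p : ℝ × ℝ in 𝓝 ((0:ℝ), t₀),
      (PerOrb (fun z => f₁ z + p.1 • g z) (y p.1) (τ p.1)) ∧
      (∀ a b, st (y p.1 p.2) a = st (y p.1 p.2) b ↔ st (x₁ t₀) a = st (x₁ t₀) b) ∧
      (∀ e, (f₁ (y p.1 p.2) + p.1 • g (y p.1 p.2)) e = 0 ↔ f₁ (x₁ t₀) e = 0) := by
  have hy0 : y 0 t₀ = x₁ t₀ := by rw [hF.y0]
  have e1 : ∀ᶠ p : ℝ × ℝ in 𝓝 ((0:ℝ), t₀), ∀ a b, st (x₁ t₀) a ≠ st (x₁ t₀) b →
      st (y p.1 p.2) a ≠ st (y p.1 p.2) b := by
    rw [eventually_all]; intro a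
    rw [eventually_all]; intro b
    by_cases h : st (x₁ t₀) a = st (x₁ t₀) b
    · exact Eventually.of_forall fun p h2 => absurd h h2
    · have h1 : {z : Ph N V | st z a = st z b}ᶜ ∈ 𝓝 (y 0 t₀) := by
        rw [hy0]
        exact (isClosed_st a b).isOpen_compl.mem_nhds h
      filter_upwards [(hF.yc t₀).eventually_mem h1] with p hp _
      exact hp
  have hcg : ContinuousAt (fun p : ℝ × ℝ => f₁ (y p.1 p.2) + p.1 • g (y p.1 p.2)) (0, t₀) := by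
    have a1 : ContinuousAt (fun p : ℝ × ℝ => f₁ (y p.1 p.2)) (0, t₀) :=
      ContinuousAt.comp (f := fun p : ℝ × ℝ => y p.1 p.2) (g := f₁) (x := (0, t₀))
        hM.cls.adm.smooth.continuous.continuousAt (hF.yc t₀)
    have a2 : ContinuousAt (fun p : ℝ × ℝ => g (y p.1 p.2)) (0, t₀) :=
      ContinuousAt.comp (f := fun p : ℝ × ℝ => y p.1 p.2) (g := g) (x := (0, t₀))
        hg.smooth.continuous.continuousAt (hF.yc t₀)
    exact a1.add (continuousAt_fst.smul a2)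
  have e2 : ∀ᶠ p : ℝ × ℝ in 𝓝 ((0:ℝ), t₀), ∀ e, f₁ (x₁ t₀) e ≠ 0 →
      (f₁ (y p.1 p.2) + p.1 • g (y p.1 p.2)) e ≠ 0 := by
    rw [eventually_all]; intro e
    by_cases h : f₁ (x₁ t₀) e = 0
    · exact Eventually.of_forall fun p h2 => absurd h h2
    · have h1 : ContinuousAt (fun p : ℝ × ℝ =>
          (f₁ (y p.1 p.2) + p.1 • g (y p.1 p.2)) e) (0, t₀) :=
        (continuous_apply e).continuousAt.comp hcg
      have h3 : (f₁ (y 0 t₀) + (0:ℝ) • g (y 0 t₀)) e ≠ 0 := by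
        rw [hy0, zero_smul, add_zero]; exact h
      have h2 := h1.eventually_ne h3
      filter_upwards [h2] with p hp _
      exact hp
  have e3 : ∀ᶠ p : ℝ × ℝ in 𝓝 ((0:ℝ), t₀), p.2 ∈ Ioo 0 (τ p.1) := by
    have h1 : ContinuousAt (fun p : ℝ × ℝ => τ p.1 - p.2) (0, t₀) := by
      refine ContinuousAt.sub ?_ continuousAt_snd
      exact ContinuousAt.comp (f := fun p : ℝ × ℝ => p.1) (g := τ) (x := (0, t₀)) hF.τc
        continuousAt_fst
    have h2 : ∀ᶠ p : ℝ × ℝ in 𝓝 ((0:ℝ), t₀), 0 < τ p.1 - p.2 := by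
      refine h1.eventually (lt_mem_nhds ?_)
      simp only [hF.τ0]
      linarith [hM.mem.2]
    have h3 : ∀ᶠ p : ℝ × ℝ in 𝓝 ((0:ℝ), t₀), 0 < p.2 :=
      (continuousAt_snd (p := ((0:ℝ), t₀))).eventually (lt_mem_nhds hM.mem.1)
    filter_upwards [h2, h3] with p h4 h5
    exact ⟨h5, by linarith⟩
  have e3' : ∀ᶠ p : ℝ × ℝ in 𝓝 ((0:ℝ), t₀), p.2 ∈ J :=
    (continuousAt_snd (p := ((0:ℝ), t₀))).eventually (hJ.mem_nhds hM.memJ)
  have e4' : ∀ᶠ ε : ℝ in 𝓝 (0:ℝ), Cls r f x T δ (fun z => f₁ z + ε • g z) (y ε) (τ ε) :=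
    cls_eventually' hx hM.cls hg hgb hF.y0 hF.τ0 hF.τc hF.yc hF.orb
  have e4 : ∀ᶠ p : ℝ × ℝ in 𝓝 ((0:ℝ), t₀),
      Cls r f x T δ (fun z => f₁ z + p.1 • g z) (y p.1) (τ p.1) :=
    (continuousAt_fst (p := ((0:ℝ), t₀))).eventually e4'
  filter_upwards [e1, e2, e3, e3', e4] with p h1 h2 h3 h3' h4
  have h5 := hM.max _ _ _ _ h4 h3 h3'
  obtain ⟨h6, h7⟩ := cnt_rigid (f := f₁) (f' := fun z => f₁ z + p.1 • g z) h1 h2 h5
  exact ⟨h4.orb, h6, h7⟩

lemma rel_zero (hJ : IsOpen J) (hx : Continuous x) (hM : LMx r J f x T δ f₁ x₁ T₁ t₀)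
    (hg : Pert g) (hgb : BdAll g)
    (hF : Fam f₁ x₁ T₁ g t₀ y τ ζ) (hf : ContDiff ℝ 1 f) (e : N.Node)
    (he : f₁ (x₁ t₀) e = 0) : fderiv ℝ f₁ (x₁ t₀) ζ e = - g (x₁ t₀) e := by
  have hp := perturb hJ hx hM hg hgb hF hf
  have h1 : ∀ᶠ ε : ℝ in 𝓝 (0:ℝ), (f₁ (y ε t₀) + ε • g (y ε t₀)) e = 0 := by
    have h2 : Tendsto (fun ε : ℝ => (ε, t₀)) (𝓝 0) (𝓝 (0, t₀)) :=
      (continuous_id.prodMk continuous_const).tendsto 0
    filter_upwards [h2.eventually hp] with ε h3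
    exact (h3.2.2 e).2 he
  have hy0 : y 0 t₀ = x₁ t₀ := by rw [hF.y0]
  have d1 : HasDerivAt (fun ε => f₁ (y ε t₀)) (fderiv ℝ f₁ (x₁ t₀) ζ) 0 := by
    have := (hM.cls.adm.smooth.differentiable one_ne_zero (y 0 t₀)).hasFDerivAt
    have h2 := this.comp_hasDerivAt (0:ℝ) hF.dζ
    rw [hy0] at h2
    exact h2
  have d2 : HasDerivAt (fun ε => g (y ε t₀)) (fderiv ℝ g (x₁ t₀) ζ) 0 := by
    have := (hg.smooth.differentiable one_ne_zero (y 0 t₀)).hasFDerivAt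
    have h2 := this.comp_hasDerivAt (0:ℝ) hF.dζ
    rw [hy0] at h2
    exact h2
  have d3 := d1.add ((hasDerivAt_id (0:ℝ)).smul d2)
  simp only [id, zero_smul, one_smul, zero_add, hy0] at d3
  have d4 := (hasDerivAt_pi.1 d3) e
  have d5 : HasDerivAt (fun _ : ℝ => (0 : V (N.sp e))) 0 0 := hasDerivAt_const _ _
  have d6 := d5.congr_of_eventuallyEq (f₁ := fun ε : ℝ => (f₁ (y ε t₀) + ε • g (y ε t₀)) e) h1
  have d7 := d4.unique d6
  simp only [Pi.add_apply] at d7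
  exact eq_neg_of_add_eq_zero_left d7

lemma rel_pair (hJ : IsOpen J) (hx : Continuous x) (hM : LMx r J f x T δ f₁ x₁ T₁ t₀)
    (hg : Pert g) (hgb : BdAll g)
    (hF : Fam f₁ x₁ T₁ g t₀ y τ ζ) (hf : ContDiff ℝ 1 f) (a b : N.Node)
    (h : N.sp a = N.sp b) (hab : st (x₁ t₀) a = st (x₁ t₀) b) :
    cst h (ζ a) = ζ b ∧
    cst h (fderiv ℝ f₁ (x₁ t₀) ζ a) - fderiv ℝ f₁ (x₁ t₀) ζ b =
      - (cst h (g (x₁ t₀) a) - g (x₁ t₀) b) := by
  have hp := perturb hJ hx hM hg hgb hF hf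
  have hy0 : y 0 t₀ = x₁ t₀ := by rw [hF.y0]
  constructor
  · have h1 : ∀ᶠ ε : ℝ in 𝓝 (0:ℝ), cst h (y ε t₀ a) = y ε t₀ b := by
      have h2 : Tendsto (fun ε : ℝ => (ε, t₀)) (𝓝 0) (𝓝 (0, t₀)) :=
        (continuous_id.prodMk continuous_const).tendsto 0
      filter_upwards [h2.eventually hp] with ε h3
      exact (st_of h).1 ((h3.2.1 a b).2 hab)
    have d1 := (hasDerivAt_pi.1 hF.dζ) a
    have d2 := (hasDerivAt_pi.1 hF.dζ) b
    have d3 := (cst (V := V) h).hasFDerivAt.comp_hasDerivAt (0:ℝ) d1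
    exact (d2.unique (d3.congr_of_eventuallyEq (h1.mono fun ε h => h.symm))).symm
  · have h1 : ∀ᶠ ε : ℝ in 𝓝 (0:ℝ), cst h ((f₁ (y ε t₀) + ε • g (y ε t₀)) a) =
        (f₁ (y ε t₀) + ε • g (y ε t₀)) b := by
      rw [nhds_prod_eq] at hp
      filter_upwards [hp.curry] with ε h3
      have h4 := h3.self_of_nhds.1
      have h5 : ∀ᶠ t in 𝓝 t₀, cst h (y ε t a) = y ε t b :=
        h3.mono fun t h6 => (st_of h).1 ((h6.2.1 a b).2 hab)
      have d1 := (hasDerivAt_pi.1 (h4.sol t₀)) a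
      have d2 := (hasDerivAt_pi.1 (h4.sol t₀)) b
      have d3 := (cst (V := V) h).hasFDerivAt.comp_hasDerivAt t₀ d1
      exact (d2.unique (d3.congr_of_eventuallyEq (h5.mono fun ε h => h.symm))).symm
    have d1 : HasDerivAt (fun ε => f₁ (y ε t₀)) (fderiv ℝ f₁ (x₁ t₀) ζ) 0 := by
      have := (hM.cls.adm.smooth.differentiable one_ne_zero (y 0 t₀)).hasFDerivAt
      have h2 := this.comp_hasDerivAt (0:ℝ) hF.dζ
      rw [hy0] at h2
      exact h2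
    have d2 : HasDerivAt (fun ε => g (y ε t₀)) (fderiv ℝ g (x₁ t₀) ζ) 0 := by
      have := (hg.smooth.differentiable one_ne_zero (y 0 t₀)).hasFDerivAt
      have h2 := this.comp_hasDerivAt (0:ℝ) hF.dζ
      rw [hy0] at h2
      exact h2
    have d3 := d1.add ((hasDerivAt_id (0:ℝ)).smul d2)
    simp only [id, zero_smul, one_smul, zero_add, hy0] at d3
    have da := (hasDerivAt_pi.1 d3) a
    have db := (hasDerivAt_pi.1 d3) b
    have dc := (cst (V := V) h).hasFDerivAt.comp_hasDerivAt (0:ℝ) da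
    have dd := db.unique (dc.congr_of_eventuallyEq (h1.mono fun ε h => h.symm))
    simp only [Pi.add_apply, map_add] at dd
    rw [neg_sub, sub_eq_sub_iff_add_eq_add, ← dd]
    abel


variable [∀ τ, FiniteDimensional ℝ (V τ)]

lemma getFam (hM : LMx r J f x T δ f₁ x₁ T₁ t₀) :
    ∃ C : ℝ, 0 ≤ C ∧ ∀ g : Ph N V → Ph N V, Pert g → ∃ y τ ζ, Fam f₁ x₁ T₁ g t₀ y τ ζ ∧
      ‖ζ‖ ≤ C * ∫ s in (0:ℝ)..T₁, ‖g (x₁ s)‖ := by
  obtain ⟨C, hC0, hC⟩ := persist hM.cls.adm.smooth hM.cls.orb hM.cls.nd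
  refine ⟨C t₀, hC0 t₀, fun g hg => ?_⟩
  obtain ⟨y, τ, h1, h2, h3, h4, h5, ζ, τ', h6, h7, h8⟩ := hC g hg.smooth hg.lip hg.bdd
  obtain ⟨h9, h10⟩ := h8 t₀ (Ioo_subset_Icc_self hM.mem)
  have h11 := h10 (fun _ => t₀) 0 rfl (hasDerivAt_const _ _)
  rw [zero_smul, add_zero] at h11
  exact ⟨y, τ, ζ t₀, ⟨h1, h2, h3, h4, h5, h11⟩, h9⟩

lemma not_null_of_rest [∀ τ, Nontrivial (V τ)] (hJ : IsOpen J) (hx : Continuous x)
    (hM : LMx r J f x T δ f₁ x₁ T₁ t₀) (hf : ContDiff ℝ 1 f)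
    (c : N.Node) (hc : f₁ (x₁ t₀) c = 0) :
    ¬ NullHit x₁ T₁ c (tup V (InputIso.refl c) (x₁ t₀)) := by
  intro hnull
  obtain ⟨C, hC0, hC⟩ := getFam hM
  obtain ⟨w, hw⟩ := exists_ne (0 : V (N.sp c))
  have hlim := integral_bump hM.cls.orb.continuous hnull w
  have h1 : ∀ n : ℕ, ‖w‖ ≤ ‖fderiv ℝ f₁ (x₁ t₀)‖ * (C * ∫ s in (0:ℝ)..T₁,
      ‖bump c (tup V (InputIso.refl c) (x₁ t₀)) (psi V c n) w (x₁ s)‖) := by
    intro n
    obtain ⟨y, τ, ζ, hF, hζ⟩ := hC _ (psi_pert c n (tup V (InputIso.refl c) (x₁ t₀)) w)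
    have h2 := rel_zero hJ hx hM (psi_pert c n _ w) (psi_bd c n _ w) hF hf c hc
    have h3 := bump_self c (x₁ t₀) n w
    have h4 : ‖bump c (tup V (InputIso.refl c) (x₁ t₀)) (psi V c n) w (x₁ t₀) c‖ =
        ‖fderiv ℝ f₁ (x₁ t₀) ζ c‖ := by rw [h2, norm_neg]
    rw [h4] at h3
    refine h3.trans ((norm_le_pi_norm _ c).trans ((ContinuousLinearMap.le_opNorm _ _).trans ?_))
    exact mul_le_mul_of_nonneg_left hζ (norm_nonneg _)
  have h2 := (hlim.const_mul C).const_mul ‖fderiv ℝ f₁ (x₁ t₀)‖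
  simp only [mul_zero] at h2
  have h3 := ge_of_tendsto' h2 h1
  exact hw (norm_le_zero_iff.1 h3)

lemma match_of_null [∀ τ, Nontrivial (V τ)] (hJ : IsOpen J) (hx : Continuous x)
    (hM : LMx r J f x T δ f₁ x₁ T₁ t₀) (hf : ContDiff ℝ 1 f)
    (c b : N.Node) (hcb : st (x₁ t₀) c = st (x₁ t₀) b)
    (hnull : NullHit x₁ T₁ c (tup V (InputIso.refl c) (x₁ t₀))) : Match (x₁ t₀) c b := by
  by_contra hnm
  have hno : ∀ β : InputIso N c b, tup V β (x₁ t₀) ≠ tup V (InputIso.refl c) (x₁ t₀) := by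
    intro β h
    rw [tup_eq_iff] at h
    exact hnm ⟨β, fun e => (h.2 e).symm⟩
  obtain ⟨h, hh⟩ := st_iff.1 hcb
  obtain ⟨C, hC0, hC⟩ := getFam hM
  obtain ⟨w, hw⟩ := exists_ne (0 : V (N.sp c))
  have hlim := integral_bump hM.cls.orb.continuous hnull w
  have h1 : ∀ᶠ n : ℕ in atTop, ‖w‖ ≤ 2 * (‖fderiv ℝ f₁ (x₁ t₀)‖ * (C * ∫ s in (0:ℝ)..T₁,
      ‖bump c (tup V (InputIso.refl c) (x₁ t₀)) (psi V c n) w (x₁ s)‖)) := by
    filter_upwards [bump_eventually_zero c (tup V (InputIso.refl c) (x₁ t₀)) w (x₁ t₀) b hno]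
      with n hn
    obtain ⟨y, τ, ζ, hF, hζ⟩ := hC _ (psi_pert c n (tup V (InputIso.refl c) (x₁ t₀)) w)
    have h2 := (rel_pair hJ hx hM (psi_pert c n _ w) (psi_bd c n _ w) hF hf c b h hcb).2
    rw [hn, sub_zero] at h2
    have h3 := bump_self c (x₁ t₀) n w
    have h8 : ‖bump c (tup V (InputIso.refl c) (x₁ t₀)) (psi V c n) w (x₁ t₀) c‖ =
        ‖cst h (fderiv ℝ f₁ (x₁ t₀) ζ c) - fderiv ℝ f₁ (x₁ t₀) ζ b‖ := by
      rw [h2, norm_neg, norm_cst]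
    rw [h8] at h3
    have h4 : ‖fderiv ℝ f₁ (x₁ t₀) ζ‖ ≤ ‖fderiv ℝ f₁ (x₁ t₀)‖ * (C * ∫ s in (0:ℝ)..T₁,
      ‖bump c (tup V (InputIso.refl c) (x₁ t₀)) (psi V c n) w (x₁ s)‖) :=
      (ContinuousLinearMap.le_opNorm _ _).trans (mul_le_mul_of_nonneg_left hζ (norm_nonneg _))
    have h5 := norm_le_pi_norm (fderiv ℝ f₁ (x₁ t₀) ζ) c
    have h6 := norm_le_pi_norm (fderiv ℝ f₁ (x₁ t₀) ζ) b
    have h7 := norm_sub_le (cst h (fderiv ℝ f₁ (x₁ t₀) ζ c)) (fderiv ℝ f₁ (x₁ t₀) ζ b)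
    rw [norm_cst] at h7
    linarith
  have h2 := ((hlim.const_mul C).const_mul ‖fderiv ℝ f₁ (x₁ t₀)‖).const_mul 2
  simp only [mul_zero] at h2
  have h3 := ge_of_tendsto h2 h1
  exact hw (norm_le_zero_iff.1 h3)

lemma near_max (hJ : IsOpen J) (hx : Continuous x) (hM : LMx r J f x T δ f₁ x₁ T₁ t₀)
    (hf : ContDiff ℝ 1 f) :
    ∃ η : ℝ, 0 < η ∧ ∀ t ∈ Ioo (t₀ - η) (t₀ + η), LMx r J f x T δ f₁ x₁ T₁ t ∧
      (∀ a b, st (x₁ t) a = st (x₁ t) b ↔ st (x₁ t₀) a = st (x₁ t₀) b) ∧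
      (∀ e, f₁ (x₁ t) e = 0 ↔ f₁ (x₁ t₀) e = 0) := by
  obtain ⟨C, hC0, hC⟩ := getFam hM
  obtain ⟨y, τ, ζ, hF, hζ⟩ := hC _ pert_zero
  have hp := perturb hJ hx hM pert_zero BdAll.zero hF hf
  have h2 : Tendsto (fun t : ℝ => ((0:ℝ), t)) (𝓝 t₀) (𝓝 (0, t₀)) :=
    (continuous_const.prodMk continuous_id).tendsto t₀
  have h3 : ∀ᶠ t in 𝓝 t₀, LMx r J f x T δ f₁ x₁ T₁ t ∧
      (∀ a b, st (x₁ t) a = st (x₁ t) b ↔ st (x₁ t₀) a = st (x₁ t₀) b) ∧
      (∀ e, f₁ (x₁ t) e = 0 ↔ f₁ (x₁ t₀) e = 0) := by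
    filter_upwards [h2.eventually hp, Ioo_mem_nhds hM.mem.1 hM.mem.2,
      hJ.mem_nhds hM.memJ] with t h4 h5 hb
    have h6 := h4.2.1
    have h7 := h4.2.2
    simp only [hF.y0, smul_zero, add_zero] at h6 h7
    refine ⟨⟨hM.cls, h5, hb, fun f'' x'' T'' t'' h8 h9 h10 => ?_⟩, h6, h7⟩
    rw [cnt_congr h6 h7]
    exact hM.max _ _ _ _ h8 h9 h10
  obtain ⟨η, hη, h4⟩ := Metric.eventually_nhds_iff_ball.1 h3
  refine ⟨η, hη, fun t ht => h4 t ?_⟩
  rw [Real.ball_eq_Ioo]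
  exact ht

/-- nodes at rest have inputs at rest -/
lemma rest_closed [∀ τ, Nontrivial (V τ)] (hJ : IsOpen J) (hx : Continuous x)
    (hM : LMx r J f x T δ f₁ x₁ T₁ t₀) (hf : ContDiff ℝ 1 f) (c : N.Node)
    (hc : f₁ (x₁ t₀) c = 0) (e : N.In c) : f₁ (x₁ t₀) (N.tail e.1) = 0 := by
  obtain ⟨η, hη, h⟩ := near_max hJ hx hM hf
  refine (rest_of_not_null hη hM.cls.orb c fun t ht => ?_).2 e
  obtain ⟨h1, h2, h3⟩ := h t ht
  exact not_null_of_rest hJ hx h1 hf c ((h3 c).2 hc)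

/-- equal states have matching inputs, or are at rest -/
lemma match_or_rest [∀ τ, Nontrivial (V τ)] (hJ : IsOpen J) (hx : Continuous x)
    (hM : LMx r J f x T δ f₁ x₁ T₁ t₀) (hf : ContDiff ℝ 1 f) (a b : N.Node)
    (hab : st (x₁ t₀) a = st (x₁ t₀) b) : Match (x₁ t₀) a b ∨ f₁ (x₁ t₀) a = 0 := by
  obtain ⟨η, hη, h⟩ := near_max hJ hx hM hf
  by_cases hall : ∀ t ∈ Ioo (t₀ - η) (t₀ + η),
      ¬ NullHit x₁ T₁ a (tup V (InputIso.refl a) (x₁ t))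
  · exact Or.inr (rest_of_not_null hη hM.cls.orb a hall).1
  · push Not at hall
    obtain ⟨t, ht, hn⟩ := hall
    obtain ⟨h1, h2, h3⟩ := h t ht
    obtain ⟨β, hβ⟩ := match_of_null hJ hx h1 hf a b ((h2 a b).2 hab) hn
    exact Or.inl ⟨β, fun e => (h2 _ _).1 (hβ e)⟩

/-- velocities of equal states are equal -/
lemma vel_eq (hJ : IsOpen J) (hx : Continuous x)
    (hM : LMx r J f x T δ f₁ x₁ T₁ t₀) (hf : ContDiff ℝ 1 f) (a b : N.Node)
    (hab : st (x₁ t₀) a = st (x₁ t₀) b) : st (f₁ (x₁ t₀)) a = st (f₁ (x₁ t₀)) b := by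
  obtain ⟨η, hη, h⟩ := near_max hJ hx hM hf
  obtain ⟨h', hh⟩ := st_iff.1 hab
  have ht₀ : t₀ ∈ Ioo (t₀ - η) (t₀ + η) := ⟨by linarith, by linarith⟩
  have hev : ∀ᶠ t in 𝓝 t₀, cst h' (x₁ t a) = x₁ t b := by
    filter_upwards [Ioo_mem_nhds ht₀.1 ht₀.2] with t ht
    exact (st_of h').1 (((h t ht).2.1 a b).2 hab)
  have d1 := (hasDerivAt_pi.1 (hM.cls.orb.sol t₀)) a
  have d2 := (hasDerivAt_pi.1 (hM.cls.orb.sol t₀)) b
  have d3 := (cst (V := V) h').hasFDerivAt.comp_hasDerivAt t₀ d1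
  rw [st_of h']
  exact (d2.unique (d3.congr_of_eventuallyEq (hev.mono fun ε h => h.symm))).symm

/-- the equilibrium argument -/
lemma match_of_rest [∀ τ, Nontrivial (V τ)] (hJ : IsOpen J) (hx : Continuous x)
    (hM : LMx r J f x T δ f₁ x₁ T₁ t₀) (hf : ContDiff ℝ 1 f) (a b : N.Node)
    (hab : st (x₁ t₀) a = st (x₁ t₀) b) (ha : f₁ (x₁ t₀) a = 0) : Match (x₁ t₀) a b := by
  classical
  set z := x₁ t₀ with hz
  set D := fderiv ℝ f₁ z with hD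
  let Z : N.Node → Prop := fun e => f₁ z e = 0
  have hZst : ∀ c d, st z c = st z d → Z c → Z d := by
    intro c d h hc
    have h1 := vel_eq hJ hx hM hf c d h
    obtain ⟨h2, h3⟩ := st_iff.1 h1
    change f₁ z d = 0
    rw [← h3]
    change cst h2 (f₁ z c) = 0
    rw [hc, map_zero]
  let U1 : Submodule ℝ (Ph N V) := relSub Z (fun a b => st z a = st z b)
    (fun a b h => (st_iff.1 h).1)
  let U2 : Submodule ℝ (Ph N V) := relSub Z (Eqv z) (fun a b h => h.type)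
  have h12 : U1 ≤ U2 := fun ξ hξ => ⟨hξ.1, fun a b h => hξ.2 a b h.1⟩
  let Λ : Ph N V →ₗ[ℝ] Ph N V := LinearMap.pi fun e =>
    if Z e then (LinearMap.proj e).comp (D : Ph N V →ₗ[ℝ] Ph N V) else 0
  have hΛ : ∀ ξ e, Z e → Λ ξ e = D ξ e := by
    intro ξ e he
    simp only [Λ, LinearMap.pi_apply, if_pos he]
    rfl
  have hΛ' : ∀ ξ e, ¬ Z e → Λ ξ e = 0 := by
    intro ξ e he
    simp only [Λ, LinearMap.pi_apply, if_neg he]
    rfl
  -- derivative only depends on the nodes at rest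
  have hloc : ∀ η : Ph N V, (∀ e, Z e → η e = 0) → ∀ e, Z e → D η e = 0 := by
    intro η hη e he
    have h1 : ∀ s : ℝ, f₁ (z + s • η) e = f₁ z e := by
      intro s
      have h2 := hM.cls.adm.comp e e (InputIso.refl e) (z + s • η) z
        (by rw [st_of rfl, cst_self, Pi.add_apply, Pi.smul_apply, hη e he, smul_zero, add_zero])
        (fun i => by
          have h3 := hη _ (rest_closed hJ hx hM hf e he i)
          change st (z + s • η) (N.tail i.1) = st z (N.tail i.1)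
          rw [st_of rfl, cst_self, Pi.add_apply, Pi.smul_apply, h3, smul_zero, add_zero])
      rw [st_of rfl, cst_self] at h2
      exact h2
    have d1 : HasDerivAt (fun s : ℝ => z + s • η) η 0 := by
      simpa using ((hasDerivAt_id (0:ℝ)).smul_const η).const_add z
    have d2 := (hM.cls.adm.smooth.differentiable one_ne_zero (z + (0:ℝ) • η)).hasFDerivAt
    have d3 := d2.comp_hasDerivAt (0:ℝ) d1
    rw [zero_smul, add_zero] at d3
    have d4 := (hasDerivAt_pi.1 d3) e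
    have d5 : HasDerivAt (fun _ : ℝ => f₁ z e) 0 0 := hasDerivAt_const _ _
    exact d4.unique (d5.congr_of_eventuallyEq (Eventually.of_forall h1))
  -- class vectors are in the range
  have hrange : ∀ c (w : V (N.sp c)), Z c → cls z c w ∈ U1.map Λ := by
    intro c w hc
    obtain ⟨κ, hκ, hev⟩ := bump_cls c z w
    obtain ⟨n, hn⟩ := hev.exists
    obtain ⟨C, hC0, hC⟩ := getFam hM
    obtain ⟨y, τ, ζ, hF, hζ⟩ := hC _ (psi_pert c n (tup V (InputIso.refl c) z) w)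
    set ξ : Ph N V := fun e => if Z e then ζ e else 0 with hξ
    have hξU : ξ ∈ U1 := by
      refine ⟨fun e he => by simp only [hξ, if_neg he], fun c' d' h => ?_⟩
      obtain ⟨h1, h2⟩ := st_iff.1 h
      rw [st_of h1]
      by_cases hc' : Z c'
      · have hd' : Z d' := hZst c' d' h hc'
        simp only [hξ, if_pos hc', if_pos hd']
        exact (rel_pair hJ hx hM (psi_pert c n _ w) (psi_bd c n _ w) hF hf c' d' h1 h).1
      · have hd' : ¬ Z d' := fun h3 => hc' (hZst d' c' h.symm h3)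
        simp only [hξ, if_neg hc', if_neg hd', map_zero]
    have hΛξ : Λ ξ = -((κ:ℝ) • cls z c w) := by
      funext e
      by_cases he : Z e
      · rw [hΛ ξ e he]
        have h1 : D ξ e = D ζ e := by
          have h2 := hloc (ξ - ζ) (fun e he => by
            rw [Pi.sub_apply]; simp only [hξ, if_pos he, sub_self]) e he
          rw [map_sub, Pi.sub_apply, sub_eq_zero] at h2
          exact h2
        rw [h1]
        have h3 := rel_zero hJ hx hM (psi_pert c n (tup V (InputIso.refl c) z) w) (psi_bd c n _ w) hF hf e he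
        rw [hn] at h3
        exact h3
      · rw [hΛ' ξ e he, Pi.neg_apply, Pi.smul_apply, cls_not (fun h => he (hZst c e h.1 hc)),
          smul_zero, neg_zero]
    have h2 : cls z c w = (-(κ:ℝ)⁻¹) • Λ ξ := by
      rw [hΛξ, smul_neg, neg_smul, neg_neg, smul_smul, inv_mul_cancel₀, one_smul]
      exact_mod_cast hκ.ne'
    rw [h2]
    exact (U1.map Λ).smul_mem _ (Submodule.mem_map_of_mem hξU)
  have hle : U2 ≤ U1.map Λ := by
    intro ξ hξ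
    let _ : Fintype (Quotient (eqvSetoid z)) := Fintype.ofFinite _
    rw [sum_cls (z := z) (ξ := ξ) hξ.2]
    refine Submodule.sum_mem _ fun q _ => ?_
    by_cases hq : Z q.out
    · exact hrange _ _ hq
    · have h0 : cls z q.out (ξ q.out) = 0 := by
        rw [hξ.1 _ hq]
        funext e
        by_cases h : Eqv z q.out e
        · rw [cls_of h, map_zero]; rfl
        · rw [cls_not h]; rfl
      rw [h0]; exact Submodule.zero_mem _
  have hfin : Module.finrank ℝ U2 ≤ Module.finrank ℝ U1 :=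
    (Submodule.finrank_mono hle).trans (Submodule.finrank_map_le Λ U1)
  have heq : U1 = U2 := Submodule.eq_of_le_of_finrank_le h12 hfin
  by_contra hnm
  obtain ⟨w, hw⟩ := exists_ne (0 : V (N.sp a))
  have hcU2 : cls z a w ∈ U2 := by
    refine ⟨fun e he => cls_not (fun h => he (hZst a e h.1 ha)) w, fun c d h => cls_st w h⟩
  rw [← heq] at hcU2
  have h1 := hcU2.2 a b hab
  obtain ⟨h2, h3⟩ := st_iff.1 h1
  rw [cls_of (Eqv.refl z a), cst_self, cls_not (fun h => hnm h.2)] at h3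
  have h4 := norm_cst h2 w
  rw [h3, norm_zero] at h4
  exact hw (norm_eq_zero.1 h4.symm)

/-- at a maximiser the pattern of equal states is balanced -/
lemma match_all [∀ τ, Nontrivial (V τ)] (hJ : IsOpen J) (hx : Continuous x)
    (hM : LMx r J f x T δ f₁ x₁ T₁ t₀) (hf : ContDiff ℝ 1 f) (a b : N.Node)
    (hab : st (x₁ t₀) a = st (x₁ t₀) b) : Match (x₁ t₀) a b := by
  rcases match_or_rest hJ hx hM hf a b hab with h | h
  · exact h
  · exact match_of_rest hJ hx hM hf a b hab h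

/-- At a maximiser the nodes at rest stay at rest for all times. -/
lemma rest_forever [∀ τ, Nontrivial (V τ)]
    (hJ : IsOpen J) (hx : Continuous x)
    (hM : LMx r J f x T δ f₁ x₁ T₁ t₀) (hf : ContDiff ℝ 1 f) (c : N.Node)
    (hc : f₁ (x₁ t₀) c = 0) (t : ℝ) : x₁ t c = x₁ t₀ c := by
  set z := x₁ t₀ with hz
  set Z : N.Node → Prop := fun e => f₁ z e = 0 with hZ
  set Q := projZ V Z with hQ
  have hsol := hM.cls.orb.sol
  have hT := hM.cls.orb.pos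
  have hcont : Continuous x₁ := hM.cls.orb.continuous
  obtain ⟨B, hB⟩ : ∃ B : ℝ, ∀ t, ‖x₁ t‖ ≤ B := by
    have hp : Function.Periodic x₁ T₁ := hM.cls.orb.per
    obtain ⟨B, hB⟩ := (isCompact_Icc (a := (0:ℝ)) (b := 0 + T₁)).exists_bound_of_continuousOn
      hcont.continuousOn
    refine ⟨B, fun t => ?_⟩
    obtain ⟨s, hs, hs2⟩ := hp.exists_mem_Ico₀ hT t
    rw [hs2]
    exact hB s ⟨hs.1, by linarith [hs.2]⟩
  have hB0 : 0 ≤ B := (norm_nonneg _).trans (hB 0)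
  set P : Ph N V → Ph N V := fun y => y - Q (y - z) with hP
  have hPZ : ∀ y e, Z e → P y e = z e := by
    intro y e he
    change y e - Q (y - z) e = z e
    rw [hQ, projZ_pos he, Pi.sub_apply]
    abel
  obtain ⟨F, hF1, ⟨K, hK⟩, -, hF2⟩ := exists_cut hM.cls.adm.smooth
    (R := B + ‖Q‖ * (B + ‖z‖)) (by positivity)
  have hPb : ∀ t, ‖P (x₁ t)‖ ≤ B + ‖Q‖ * (B + ‖z‖) := by
    intro t
    have h1 := norm_sub_le (x₁ t) (Q (x₁ t - z))
    have h2 := Q.le_opNorm (x₁ t - z)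
    have h3 := norm_sub_le (x₁ t) z
    have h4 : ‖Q‖ * ‖x₁ t - z‖ ≤ ‖Q‖ * (B + ‖z‖) :=
      mul_le_mul_of_nonneg_left (by linarith [hB t]) (norm_nonneg _)
    change ‖x₁ t - Q (x₁ t - z)‖ ≤ _
    linarith [hB t]
  have hb1 : ∀ t, f₁ (x₁ t) = F (x₁ t) := fun t => (hF2 _ (by
    rw [mem_ball_zero_iff]
    have : 0 ≤ ‖Q‖ * (B + ‖z‖) := by positivity
    linarith [hB t])).symm
  have hb2 : ∀ t, f₁ (P (x₁ t)) = F (P (x₁ t)) := fun t => (hF2 _ (by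
    rw [mem_ball_zero_iff]
    linarith [hPb t])).symm
  have hfix : ∀ y, Q (f₁ (P y)) = 0 := by
    intro y
    funext e
    by_cases he : Z e
    · rw [hQ, projZ_pos he]
      have h1 := hM.cls.adm.comp e e (InputIso.refl e) (P y) z
        (by rw [st_of rfl, cst_self, hPZ y e he])
        (fun i => by
          have h3 := hPZ y _ (rest_closed hJ hx hM hf e he i)
          change st (P y) (N.tail i.1) = st z (N.tail i.1)
          rw [st_of rfl, cst_self, h3])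
      rw [st_of rfl, cst_self] at h1
      rw [h1]
      exact he
    · rw [hQ, projZ_neg he]; rfl
  set u : ℝ → Ph N V := fun t => Q (x₁ t - z) with hu
  have hud : ∀ t, HasDerivAt u (Q (f₁ (x₁ t))) t := fun t =>
    Q.hasFDerivAt.comp_hasDerivAt t ((hsol t).sub_const z)
  have hbound : ∀ t, ‖Q (f₁ (x₁ t))‖ ≤ (‖Q‖ * K) * ‖u t‖ := by
    intro t
    have h1 : Q (f₁ (x₁ t)) = Q (f₁ (x₁ t) - f₁ (P (x₁ t))) := by
      rw [map_sub, hfix, sub_zero]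
    have h2 : ‖f₁ (x₁ t) - f₁ (P (x₁ t))‖ ≤ K * ‖u t‖ := by
      rw [hb1, hb2, ← dist_eq_norm]
      have := hK.dist_le_mul (x₁ t) (P (x₁ t))
      rw [dist_eq_norm (x₁ t)] at this
      have h3 : x₁ t - P (x₁ t) = u t := by
        change x₁ t - (x₁ t - Q (x₁ t - z)) = Q (x₁ t - z)
        abel
      rw [h3] at this
      exact this
    rw [h1]
    have h3 := Q.le_opNorm (f₁ (x₁ t) - f₁ (P (x₁ t)))
    have h4 := mul_le_mul_of_nonneg_left h2 (norm_nonneg Q)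
    linarith
  have hu0 : u t₀ = 0 := by
    change Q (x₁ t₀ - z) = 0
    rw [hz, sub_self, map_zero]
  have hzero : ∀ t, t₀ ≤ t → u t = 0 := by
    intro t ht
    refine eq_zero_of_abs_deriv_le_mul_abs_self_of_eq_zero_right (f := u)
      (f' := fun t => Q (f₁ (x₁ t))) (K := ‖Q‖ * K) (a := t₀) (b := t)
      (fun s _ => (hud s).continuousAt.continuousWithinAt)
      (fun s _ => (hud s).hasDerivWithinAt) hu0 (fun s _ => hbound s) t ⟨ht, le_rfl⟩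
  obtain ⟨n, hn⟩ : ∃ n : ℕ, t₀ ≤ t + n * T₁ := by
    obtain ⟨n, hn⟩ := exists_nat_ge ((t₀ - t) / T₁)
    refine ⟨n, ?_⟩
    rw [div_le_iff₀ hT] at hn
    linarith
  have hp : Function.Periodic x₁ T₁ := hM.cls.orb.per
  have h1 : x₁ (t + n * T₁) = x₁ t := hp.nat_mul n t
  have h2 := congrFun (hzero _ hn) c
  change Q (x₁ (t + n * T₁) - z) c = 0 at h2
  rw [h1, hQ, projZ_pos hc, Pi.sub_apply, sub_eq_zero] at h2
  exact h2


end

end

end Pool.Agent.R194.RS
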